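import Pool.Agent.MP2b98ed.Final

/-!
# Blow-ups of Hirzebruch surfaces at four general points have pseudo-effective tangent bundle
-/

set_option autoImplicit false

open CategoryTheory AlgebraicGeometry Pool.Agent.MP77a250.St Pool.Agent.MP2b98ed.St

namespace Pool.Agent.Results.MP_2b98ed_ag.TangentPseff

/-- For every `n ≥ 0` the tangent bundle of the blow-up of `𝔽_n` at four general points is
pseudo-effective: there are an ample line bundle `A` and a nonempty open set `U` such that
`A ⊗ Sym^m T_X` is generated by its global sections at all points of `U`, for all `m > 0`. -/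
theorem result (n : ℕ) : ∃ P : MvPolynomial (Fin 4 × Fin 2) ℂ, P ≠ 0 ∧
    ∀ p : Fin 4 × Fin 2 → ℂ, MvPolynomial.eval p P ≠ 0 →
    ∀ (F : Scheme.{0}) (s : F ⟶ SC) (H : Hirzebruch n s) (X : Scheme.{0}) (β : X ⟶ F)
      [IsIntegral X], IsBlowUp β (H.pointsIdeal p) → IsProjectiveManifold (β ≫ s) →
      TangentPseudoEffective (β ≫ s) :=
  Pool.Agent.MP2b98ed.main n

end Pool.Agent.Results.MP_2b98ed_ag.TangentPseff
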